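import Pool.Agent.SawCone.Trans

set_option autoImplicit false

/-!
# MP_b5172a_pr: factorial moments of the number of cone points of self-avoiding walks
-/

namespace Pool.Agent.Results.MP_b5172a_pr.ConePoints

open Pool.Agent.SawCone

/-- For every dimension `d = D + 2 ≥ 2`, every coordinate direction `e • e_i` and every other
coordinate `j`: if `N` is the number of cone points of the uniform `n`-step self-avoiding walk
`γ_n` on `ℤ^d`, then `E [binom(N, r + 1)] ≤ (log (n + 1))^r` and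
`E [binom(N, r + 1) ‖γ_n‖²] ≤ (log (n + 1))^r E [‖γ_n‖²]` for all `n` and `r` (both as one
inequality with the weight `a + b ‖γ_n‖²`, `a, b ≥ 0`). -/
theorem result : ∀ (D n r : ℕ) (i j : Fin (D + 2)) (e : ℤ), i ≠ j → (e = 1 ∨ e = -1) →
    ∀ a b : ℝ, 0 ≤ a → 0 ≤ b →
    (∑ᶠ γ ∈ Walks D n, ((numCone i j e γ).choose (r + 1) : ℝ) *
      (a + b * ∑ l, ((γ (Fin.last n) l : ℤ) : ℝ) ^ 2)) ≤
    Real.log ((n : ℝ) + 1) ^ r *
      ∑ᶠ γ ∈ Walks D n, (a + b * ∑ l, ((γ (Fin.last n) l : ℤ) : ℝ) ^ 2) := by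
  intro D n r i j e hij he a b ha hb
  rw [finsum_moment, finsum_weight]
  exact moment_dir D n r i j hij e he a b ha hb

end Pool.Agent.Results.MP_b5172a_pr.ConePoints
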