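import Pool.Agent.SawCone.Trans

set_option autoImplicit false

/-!
# MP_b5172a_pr: cone walks per dyadic block of lengths
-/

namespace Pool.Agent.Results.MP_b5172a_pr.ConeWalks

open Pool.Agent.SawCone

/-- For every dimension `d = D + 2 ≥ 2` with connective constant `μ`: if `d_n` is the number of
`n`-step self-avoiding walks on `ℤ^d` which are cone walks, then
`∑_{s ≤ n < 2s} d_n μ^(-n) ≤ 16 μ` for every `s ≥ 1`. -/
theorem result : ∀ D s : ℕ, 1 ≤ s → ∑ n ∈ Finset.Ico s (2 * s),
    (({γ | γ ∈ Walks D n ∧ ConeWalk γ}.ncard : ℕ) : ℝ) / conn D ^ n ≤ 16 * conn D := by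
  intro D s hs
  have h := block D s (by omega)
  rw [conn_eq]
  refine le_trans (le_of_eq ?_) h
  refine Finset.sum_congr rfl fun n _ => ?_
  rw [ncard_coneWalk, div_eq_mul_inv, inv_pow]

end Pool.Agent.Results.MP_b5172a_pr.ConeWalks
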