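import Pool.Agent.SBW.Assemble

set_option autoImplicit false

/-!
# MP_b5172a_pr: quantitative sub-ballisticity of self-avoiding walk on `ℤ^d` with a power of `log n`
-/

namespace Pool.Agent.Results.MP_b5172a_pr.LogPower

/-- For every dimension `d ≥ 2` there are `c, C > 0` such that the mean-squared displacement of the
uniform `n`-step self-avoiding walk on `ℤ^d` is at most `C n² / (log n)^c` for all `n ≥ 2`. -/
theorem result : ∀ d : ℕ, 2 ≤ d → ∃ c : ℝ, 0 < c ∧ ∃ C : ℝ, 0 < C ∧ ∀ n : ℕ, 2 ≤ n →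
    ((∑ᶠ γ ∈ {γ : Fin (n + 1) → Fin d → ℤ |
          γ 0 = 0 ∧ Function.Injective γ ∧
            ∀ k : Fin n, ∑ i : Fin d, |γ k.succ i - γ k.castSucc i| = 1},
        ((∑ i : Fin d, (γ (Fin.last n) i) ^ 2 : ℤ) : ℝ)) /
      ((({γ : Fin (n + 1) → Fin d → ℤ |
          γ 0 = 0 ∧ Function.Injective γ ∧
            ∀ k : Fin n, ∑ i : Fin d, |γ k.succ i - γ k.castSucc i| = 1}).ncard : ℕ) : ℝ)) ≤
      C * (n : ℝ) ^ 2 / (Real.log n) ^ c := by
  intro d hd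
  obtain ⟨D, rfl⟩ : ∃ D, d = D + 2 := ⟨d - 2, by omega⟩
  obtain ⟨c, hc, C, hC, h⟩ := Pool.Agent.SBW.f_MSD D
  refine ⟨c, hc, C, hC, ?_⟩
  intro n hn
  obtain ⟨e1, e2⟩ := Pool.Agent.SBW.p_CONV D n
  rw [e1, e2]
  have hlog : 0 < Real.log n := Real.log_pos (by exact_mod_cast (by omega : 1 < n))
  have hR : 0 ≤ C * (n : ℝ) ^ 2 / (Real.log n) ^ c := by positivity
  rcases Nat.eq_zero_or_pos (Pool.Agent.SBW.SwF D n).card with h0 | h0
  · rw [h0]
    simpa using hR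
  · rw [div_le_iff₀ (by exact_mod_cast h0)]
    exact h n hn

end Pool.Agent.Results.MP_b5172a_pr.LogPower
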